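import Pool.Agent.W564.SC.Defs2

/-!
# Project SC, part D: chain recurrent points of `f × id` on `M × 𝕋ᵏ` can be closed if `k > r dim M`
-/

open scoped Manifold ContDiff Topology
open Filter Set Metric

universe u

namespace Pool.Agent.W696.SC

open Pool.Agent.H718R2.G Pool.Agent.W564.SC

lemma numer (k D r : ℕ) (hD : 1 ≤ D) (hr : r * D < k) (C C3 κU κ1 : ℝ)
    (hC : 1 ≤ C) (hC3 : 1 ≤ C3) (hκU : 0 < κU) (hκ1 : 0 < κ1) :
    ∃ δ : ℝ, 0 < δ ∧ δ ≤ 1 ∧ ∀ m : ℕ, 1 ≤ m → m * δ ^ D ≤ C → 1 ≤ C * (m * δ ^ D) →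
      C3 / m ≤ κU ^ k ∧ ∃ ρ : ℝ, 0 < ρ ∧ ρ ≤ 1 / 16 ∧ (4 * C * ρ) ^ k ≤ 1 / (C3 * m) ∧
        C * δ ≤ κ1 * ρ ^ r := by
  have hk : k ≠ 0 := by omega
  have hC0 : 0 < C := by linarith
  have hC30 : 0 < C3 := by linarith
  obtain ⟨c0, hc0⟩ : ∃ c0 : ℝ, c0 = 1 / (C3 * C * (4 * C) ^ k) := ⟨_, rfl⟩
  have hc0p : 0 < c0 := by rw [hc0]; positivity
  obtain ⟨δ, hδ⟩ : ∃ δ : ℝ, δ = min (min 1 (κU ^ k / (C3 * C)))
      (min ((1 / 4) ^ k / C) (κ1 ^ k * c0 ^ r / C ^ k)) := ⟨_, rfl⟩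
  have hδ0 : 0 < δ := by
    rw [hδ]
    refine lt_min (lt_min one_pos (by positivity)) (lt_min (by positivity) (by positivity))
  have hδ1 : δ ≤ 1 := by rw [hδ]; exact (min_le_left _ _).trans (min_le_left _ _)
  have hδ2 : δ ≤ κU ^ k / (C3 * C) := by
    rw [hδ]; exact (min_le_left _ _).trans (min_le_right _ _)
  have hδ3 : δ ≤ (1 / 4) ^ k / C := by
    rw [hδ]; exact (min_le_right _ _).trans (min_le_left _ _)
  have hδ4 : δ ≤ κ1 ^ k * c0 ^ r / C ^ k := by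
    rw [hδ]; exact (min_le_right _ _).trans (min_le_right _ _)
  refine ⟨δ, hδ0, hδ1, ?_⟩
  intro m hm h1 h2
  have hm0 : (0 : ℝ) < m := by exact_mod_cast hm
  have hδD : δ ^ D ≤ δ := by
    calc δ ^ D ≤ δ ^ 1 := pow_le_pow_of_le_one hδ0.le hδ1 hD
      _ = δ := pow_one δ
  have hinv : 1 / (m : ℝ) ≤ C * δ := by
    rw [div_le_iff₀ hm0]
    calc (1 : ℝ) ≤ C * (m * δ ^ D) := h2
      _ ≤ C * (m * δ) := by
        apply mul_le_mul_of_nonneg_left _ hC0.le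
        exact mul_le_mul_of_nonneg_left hδD hm0.le
      _ = C * δ * m := by ring
  refine ⟨?_, ?_⟩
  · calc C3 / m = C3 * (1 / m) := by ring
      _ ≤ C3 * (C * δ) := mul_le_mul_of_nonneg_left hinv hC30.le
      _ = δ * (C3 * C) := by ring
      _ ≤ κU ^ k := by rwa [le_div_iff₀ (by positivity)] at hδ2
  · obtain ⟨τ, hτ⟩ : ∃ τ : ℝ, τ = (1 / (C3 * m)) ^ ((k : ℝ)⁻¹) := ⟨_, rfl⟩
    have hτ0 : 0 < τ := by rw [hτ]; positivity
    have hτk : τ ^ k = 1 / (C3 * m) := by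
      rw [hτ]; exact Real.rpow_inv_natCast_pow (by positivity) hk
    have hτ4 : τ ≤ 1 / 4 := by
      by_contra hcon
      push Not at hcon
      have h3 : (1 / 4 : ℝ) ^ k < τ ^ k := pow_lt_pow_left₀ hcon (by norm_num) hk
      rw [hτk] at h3
      have h4 : 1 / (C3 * m) ≤ 1 / (m : ℝ) := by
        apply one_div_le_one_div_of_le hm0
        nlinarith
      have h5 : C * δ ≤ (1 / 4) ^ k := by
        rw [le_div_iff₀ hC0] at hδ3
        linarith
      linarith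
    have hρk : (τ / (4 * C)) ^ k = 1 / (C3 * m * (4 * C) ^ k) := by
      rw [div_pow, hτk, div_div]
    refine ⟨τ / (4 * C), by positivity, ?_, ?_, ?_⟩
    · rw [div_le_iff₀ (by positivity)]
      linarith
    · rw [mul_div_cancel₀ _ (by positivity), hτk]
    · have key : (C * δ) ^ k ≤ (κ1 * (τ / (4 * C)) ^ r) ^ k := by
        have h3 : c0 * δ ^ D ≤ (τ / (4 * C)) ^ k := by
          rw [hρk, hc0]
          rw [le_div_iff₀ (by positivity)]
          have : 1 / (C3 * C * (4 * C) ^ k) * δ ^ D * (C3 * m * (4 * C) ^ k)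
              = (m * δ ^ D) / C := by
            field_simp
          rw [this, div_le_one hC0]
          exact h1
        have h4 : (κ1 * (τ / (4 * C)) ^ r) ^ k = κ1 ^ k * ((τ / (4 * C)) ^ k) ^ r := by
          rw [mul_pow, ← pow_mul, ← pow_mul, mul_comm r k]
        rw [h4]
        have h5 : (c0 * δ ^ D) ^ r ≤ ((τ / (4 * C)) ^ k) ^ r :=
          pow_le_pow_left₀ (by positivity) h3 r
        have h6 : δ ^ k ≤ δ ^ (r * D) * δ := by
          rw [← pow_succ]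
          exact pow_le_pow_of_le_one hδ0.le hδ1 hr
        have h7 : δ * C ^ k ≤ κ1 ^ k * c0 ^ r := by
          rwa [le_div_iff₀ (by positivity)] at hδ4
        calc (C * δ) ^ k = C ^ k * δ ^ k := mul_pow _ _ _
          _ ≤ C ^ k * (δ ^ (r * D) * δ) := mul_le_mul_of_nonneg_left h6 (by positivity)
          _ = (δ * C ^ k) * δ ^ (r * D) := by ring
          _ ≤ (κ1 ^ k * c0 ^ r) * δ ^ (r * D) := mul_le_mul_of_nonneg_right h7 (by positivity)
          _ = κ1 ^ k * (c0 * δ ^ D) ^ r := by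
            rw [mul_pow, ← pow_mul, mul_comm D r]; ring
          _ ≤ κ1 ^ k * ((τ / (4 * C)) ^ k) ^ r := mul_le_mul_of_nonneg_left h5 (by positivity)
      exact le_of_pow_le_pow_left₀ hk (by positivity) key

lemma norm_lt_of_coord (k : ℕ) (hk : 1 ≤ k) (κ : ℝ) (hκ : 0 < κ) (α : V k)
    (h : ∀ j, |α j| ^ k ≤ (κ / (2 * k)) ^ k) : ‖α‖ < κ := by
  have hk0 : (0 : ℝ) < k := by exact_mod_cast hk
  have hk1 : (1 : ℝ) ≤ k := by exact_mod_cast hk
  have h1 : ∀ j, |α j| ≤ κ / (2 * k) := fun j =>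
    le_of_pow_le_pow_left₀ (by omega) (by positivity) (h j)
  have h2 : ‖α‖ ^ 2 ≤ k * (κ / (2 * k)) ^ 2 := by
    rw [EuclideanSpace.norm_sq_eq]
    calc ∑ j, ‖α j‖ ^ 2 ≤ ∑ _j : Fin k, (κ / (2 * k)) ^ 2 := by
          apply Finset.sum_le_sum
          intro j _
          rw [Real.norm_eq_abs]
          exact pow_le_pow_left₀ (abs_nonneg _) (h1 j) 2
      _ = k * (κ / (2 * k)) ^ 2 := by simp
  have h3 : k * (κ / (2 * k)) ^ 2 < κ ^ 2 := by
    have : (k : ℝ) * (κ / (2 * k)) ^ 2 = κ ^ 2 / (4 * k) := by field_simp; ring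
    rw [this, div_lt_iff₀ (by positivity)]
    nlinarith [pow_pos hκ 2]
  exact lt_of_pow_lt_pow_left₀ 2 hκ.le (h2.trans_lt h3)

lemma exp_far (s ρ : ℝ) (h : ∀ t : ℤ, ρ ≤ |s - t|) :
    4 * ρ ≤ ‖Complex.exp (2 * Real.pi * Complex.I * s) - 1‖ := by
  obtain ⟨x, hx⟩ : ∃ x : ℝ, x = s - round s := ⟨_, rfl⟩
  have hx1 : |x| ≤ 1 / 2 := by rw [hx]; exact abs_sub_round s
  have hx2 : ρ ≤ |x| := by rw [hx]; exact h (round s)
  have e1 : Complex.exp (2 * Real.pi * Complex.I * s) = Complex.exp (Complex.I * ((2 * Real.pi * x : ℝ) : ℂ)) := by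
    have : (2 * Real.pi * Complex.I * s : ℂ) = Complex.I * ((2 * Real.pi * x : ℝ) : ℂ) + (round s : ℤ) * (2 * Real.pi * Complex.I) := by
      rw [hx]; push_cast; ring
    rw [this, Complex.exp_add, Complex.exp_int_mul_two_pi_mul_I, mul_one]
  rw [e1, Complex.norm_exp_I_mul_ofReal_sub_one]
  have hpi := Real.pi_pos
  have h3 : 2 / Real.pi * |2 * Real.pi * x / 2| ≤ |Real.sin (2 * Real.pi * x / 2)| := by
    apply Real.mul_abs_le_abs_sin
    have : 2 * Real.pi * x / 2 = Real.pi * x := by ring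
    rw [this, abs_mul, abs_of_pos hpi]
    nlinarith
  have h4 : 2 / Real.pi * |2 * Real.pi * x / 2| = 2 * |x| := by
    have : 2 * Real.pi * x / 2 = Real.pi * x := by ring
    rw [this, abs_mul, abs_of_pos hpi]
    field_simp
  rw [h4] at h3
  rw [Real.norm_eq_abs, abs_mul, abs_of_pos (by norm_num : (0 : ℝ) < 2)]
  linarith

lemma isMulti_mono (n : ℕ) (N : Type*) [TopologicalSpace N] [ChartedSpace (V n) N] (r : ℕ∞) (A : ℕ)
    (χs : Fin A → OpenPartialHomeomorph N (V n)) (k : ℕ) (κ κ' : ℝ) (hκ : κ ≤ κ')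
    (Θ : DiffM n N r) (h : IsMulti n N r A χs k κ Θ) : IsMulti n N r A χs k κ' Θ := by
  intro y
  obtain ⟨b, u, Θ', h1, h2, h3⟩ := h y
  exact ⟨b, u, Θ', ⟨h1.smooth, h1.supp, fun j hj x => (h1.bd j hj x).trans hκ⟩, h2, h3⟩

theorem d (h1 : S_NBM.{u}) (h2 : S_MB.{u}) (h3 : S_ALPHA) (h4 : S_CHAIN.{u}) (h5 : S_TF.{u}) :
    S_D.{u} := by
  intro k n N _ _ _ _ _ r hr hkn hrk R hR a ha F hF haF z hz U hU hFU
  obtain ⟨D, hD⟩ : ∃ D, D = n - k := ⟨_, rfl⟩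
  rw [← hD] at hrk
  have hD1 : 1 ≤ D := by omega
  have hDk : D + k = n := by omega
  have hk1 : 1 ≤ k := by omega
  have hk0 : (0 : ℝ) < k := by exact_mod_cast hk1
  obtain ⟨H, hH, hH0, hfam⟩ := h5 k n N (r : ℕ∞) R hR F
  have hr' : (1 : ℕ∞) ≤ (r : ℕ∞) := by exact_mod_cast hr
  obtain ⟨A, χs, zs, C, hA, hχ, hC, hLip, hchain⟩ :=
    h4 k D n N (r : ℕ∞) hr' hD1 hDk R hR a ha F hF haF z hz
  obtain ⟨kU, hkU1, hkUr, κU, hκU, hnb⟩ :=
    h1 n N (r : ℕ∞) hr' (V k) H hfam A χs zs hχ U hU (by rw [hH0]; exact hFU)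
  obtain ⟨C2, hC2, hmb⟩ := h2 n N (r : ℕ∞) A χs zs hχ hA kU hkU1
  obtain ⟨C3, hC3, hal⟩ := h3 k hk1
  have hkUr' : kU ≤ r := by exact_mod_cast hkUr
  obtain ⟨κ1, hκ1⟩ : ∃ κ1 : ℝ, κ1 = min 1 κU / C2 := ⟨_, rfl⟩
  have hκ10 : 0 < κ1 := by rw [hκ1]; exact div_pos (lt_min one_pos hκU) hC2
  have hCκ : C2 * κ1 = min 1 κU := by rw [hκ1]; field_simp
  have hCκ1 : C2 * κ1 ≤ 1 := by rw [hCκ]; exact min_le_left _ _
  have hCκ2 : C2 * κ1 ≤ κU := by rw [hCκ]; exact min_le_right _ _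
  obtain ⟨δ, hδ0, hδ1, hnum⟩ := numer k D r hD1 hrk C C3 (κU / (2 * k)) κ1 hC hC3
    (by positivity) hκ10
  obtain ⟨m, c, hm, hm1, hm2, hc0, hcm, hca, hcc⟩ := hchain δ hδ0 hδ1
  obtain ⟨hsm, ρ, hρ0, hρ1, hρk, hρw⟩ := hnum m hm hm1 hm2
  obtain ⟨α, hα1, hα2, hα3⟩ := hal m hm
  have hαn : ‖α‖ < κU := norm_lt_of_coord k hk1 κU hκU α (fun j => (hα2 j).trans hsm)
  have hb : ∀ i : ℕ, ∃ b : Fin A, i < m → (R (((i : ℝ) + 1) • α) (F (c i)) ∈ (χs b).source ∧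
          R (((i : ℝ) + 1) • α) (c (i + 1)) ∈ (χs b).source ∧
          ‖χs b (R (((i : ℝ) + 1) • α) (c (i + 1)))‖ ≤ 1 / 4 ∧
          ‖χs b (R (((i : ℝ) + 1) • α) (F (c i))) - χs b (R (((i : ℝ) + 1) • α) (c (i + 1)))‖
            ≤ C * δ) := by
    intro i
    by_cases hi : i < m
    · obtain ⟨b, hb⟩ := hcc i hi (((i : ℝ) + 1) • α)
      exact ⟨b, fun _ => hb⟩
    · exact ⟨⟨0, hA⟩, fun h => absurd h hi⟩
  choose b hb using hb
  have hC0 : 0 < C := by linarith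
  have hCρ : 0 < C * ρ := by positivity
  have near : ∀ i < m, ∀ y ∈ (χs (b i)).symm '' closedBall (χs (b i) (R (((i : ℝ) + 1) • α) (c (i + 1)))) (2 * ρ),
      ∀ j, ‖a y j - a (R (((i : ℝ) + 1) • α) (c (i + 1))) j‖ ≤ C * (2 * ρ) := by
    intro i hi y hy j
    obtain ⟨hb1, hb2, hb3, hb4⟩ := hb i hi
    obtain ⟨x, hx, rfl⟩ := hy
    rw [mem_closedBall, dist_eq_norm] at hx
    have hxn : ‖x‖ ≤ 1 / 2 := by
      calc ‖x‖ = ‖(x - χs (b i) (R (((i : ℝ) + 1) • α) (c (i + 1)))) + χs (b i) (R (((i : ℝ) + 1) • α) (c (i + 1)))‖ := by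
            rw [sub_add_cancel]
        _ ≤ ‖x - χs (b i) (R (((i : ℝ) + 1) • α) (c (i + 1)))‖ + ‖χs (b i) (R (((i : ℝ) + 1) • α) (c (i + 1)))‖ := norm_add_le _ _
        _ ≤ 1 / 2 := by linarith
    have hxt : x ∈ (χs (b i)).target := by
      apply (hχ (b i)).ball
      rw [mem_closedBall, dist_zero_right]
      linarith
    have hsrc : (χs (b i)).symm x ∈ (χs (b i)).source := (χs (b i)).map_target hxt
    have hinv : χs (b i) ((χs (b i)).symm x) = x := (χs (b i)).right_inv hxt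
    have := hLip (b i) _ hsrc _ hb2 (by rw [hinv]; exact hxn) (by linarith) j
    rw [hinv] at this
    exact this.trans (mul_le_mul_of_nonneg_left hx hC0.le)
  have aP : ∀ i j, a (R (((i : ℕ) + 1 : ℝ) • α) (c (i + 1))) j =
      Complex.exp (2 * Real.pi * Complex.I * ((((i : ℕ) + 1 : ℝ) * α j : ℝ) : ℂ)) * a z j := by
    intro i j
    rw [ha.equiv, hca]
    rfl
  have far : ∀ i i' : ℕ, i < i' → i' < m → ∃ j, 4 * (4 * C * ρ) ≤
      ‖a (R (((i' : ℝ) + 1) • α) (c (i' + 1))) j - a (R (((i : ℝ) + 1) • α) (c (i + 1))) j‖ := by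
    intro i i' hii hi'
    obtain ⟨j, hj⟩ := hα3 (4 * C * ρ) (by positivity) hρk (i' - i) (by omega) (by omega)
    refine ⟨j, ?_⟩
    have e1 := exp_far (((i' - i : ℕ) : ℝ) * α j) (4 * C * ρ) hj
    have e2 : a (R (((i' : ℝ) + 1) • α) (c (i' + 1))) j - a (R (((i : ℝ) + 1) • α) (c (i + 1))) j
        = (Complex.exp (2 * Real.pi * Complex.I * ((((i' - i : ℕ) : ℝ) * α j : ℝ) : ℂ)) - 1)
          * a (R (((i : ℝ) + 1) • α) (c (i + 1))) j := by
      rw [sub_mul, one_mul, aP i j, ← mul_assoc, ← Complex.exp_add, aP i' j]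
      have : (2 * Real.pi * Complex.I * ((((i' : ℕ) + 1 : ℝ) * α j : ℝ) : ℂ)) =
          2 * Real.pi * Complex.I * ((((i' - i : ℕ) : ℝ) * α j : ℝ) : ℂ) +
          2 * Real.pi * Complex.I * ((((i : ℕ) + 1 : ℝ) * α j : ℝ) : ℂ) := by
        rw [Nat.cast_sub hii.le]
        push_cast
        ring
      rw [this]
    rw [e2, norm_mul, ha.norm, mul_one]
    exact e1
  have disj' : ∀ i i' : ℕ, i < i' → i' < m →
      Disjoint ((χs (b i)).symm '' closedBall (χs (b i) (R (((i : ℝ) + 1) • α) (c (i + 1)))) (2 * ρ))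
        ((χs (b i')).symm '' closedBall (χs (b i') (R (((i' : ℝ) + 1) • α) (c (i' + 1)))) (2 * ρ)) := by
    intro i i' hii hi'
    rw [Set.disjoint_left]
    intro y hy hy'
    obtain ⟨j, hj⟩ := far i i' hii hi'
    have n1 := near i (by omega) y hy j
    have n2 := near i' hi' y hy' j
    have n3 : ‖a (R (((i' : ℝ) + 1) • α) (c (i' + 1))) j - a (R (((i : ℝ) + 1) • α) (c (i + 1))) j‖
        ≤ ‖a y j - a (R (((i : ℝ) + 1) • α) (c (i + 1))) j‖ +
          ‖a y j - a (R (((i' : ℝ) + 1) • α) (c (i' + 1))) j‖ := by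
      have : a (R (((i' : ℝ) + 1) • α) (c (i' + 1))) j - a (R (((i : ℝ) + 1) • α) (c (i + 1))) j
        = (a y j - a (R (((i : ℝ) + 1) • α) (c (i + 1))) j) -
          (a y j - a (R (((i' : ℝ) + 1) • α) (c (i' + 1))) j) := by ring
      rw [this]
      exact norm_sub_le _ _
    nlinarith
  obtain ⟨Θ, hΘm, hΘ⟩ := hmb ρ κ1 hρ0 hρ1 hCκ1 hκ10.le m b
    (fun i => χs (b i) (R (((i : ℝ) + 1) • α) (c (i + 1))))
    (fun i => χs (b i) (R (((i : ℝ) + 1) • α) (F (c i))) - χs (b i) (R (((i : ℝ) + 1) • α) (c (i + 1))))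
    (fun i hi => (hb i hi).2.2.1)
    (fun i hi => by
      refine ((hb i hi).2.2.2.trans hρw).trans ?_
      apply mul_le_mul_of_nonneg_left _ hκ10.le
      exact pow_le_pow_of_le_one hρ0.le (by linarith) hkUr')
    (fun i hi i' hi' hne => by
      rcases lt_or_gt_of_ne hne with h | h
      · exact disj' i i' h hi'
      · exact (disj' i' i h hi).symm)
  have hΘ' : ∀ i < m, Θ (R (((i : ℝ) + 1) • α) (F (c i))) = R (((i : ℝ) + 1) • α) (c (i + 1)) := by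
    intro i hi
    obtain ⟨hb1, hb2, hb3, hb4⟩ := hb i hi
    have := hΘ i hi
    simp only [add_sub_cancel] at this
    rwa [(χs (b i)).left_inv hb1, (χs (b i)).left_inv hb2] at this
  refine ⟨(H α).trans Θ, hnb α Θ hαn (isMulti_mono n N r A χs kU _ _ hCκ2 Θ hΘm), m, hm, ?_⟩
  have hit : ∀ i ≤ m, ((H α).trans Θ)^[i] z = R ((i : ℝ) • α) (c i) := by
    intro i
    induction i with
    | zero =>
      intro _
      simp only [Function.iterate_zero, id, Nat.cast_zero, zero_smul]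
      rw [hR.zero, hc0]
    | succ i ih =>
      intro hi
      rw [Function.iterate_succ_apply', ih (by omega)]
      have e1 : ((H α).trans Θ) (R ((i : ℝ) • α) (c i)) = Θ (H α (R ((i : ℝ) • α) (c i))) := rfl
      rw [e1, hH, ← hR.add, hF]
      have e2 : α + (i : ℝ) • α = ((i : ℝ) + 1) • α := by
        rw [add_smul, one_smul, add_comm]
      rw [e2, hΘ' i (by omega)]
      push_cast
      rfl
  rw [hit m le_rfl, hcm]
  rw [hR.free]
  intro j
  obtain ⟨t, ht⟩ := hα1 j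
  exact ⟨t, ht⟩

end Pool.Agent.W696.SC
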